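import Pool.Agent.Helper5.KM.Basic

/-! Part SHC: conditional expectations and the shift. -/

open MeasureTheory Filter Topology

namespace Pool.Agent.Helper44.KM

open Pool.Agent.Helper5.KM

variable {b : ℕ}

theorem condExp_sh {μ : Measure (Sq b)} [IsProbabilityMeasure μ]
    (h : MeasurePreserving (sh 1) μ μ) (f : Sq b → ℂ) (hf : Integrable f μ) (n k : ℤ) :
    μ[fun y => f (sh k y) | past b (n + k)] =ᵐ[μ] fun y => (μ[f | past b n]) (sh k y) := by
  have hmp := mp_sh h k
  have hcint : Integrable (fun y => (μ[f | past b n]) (sh k y)) μ :=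
    (hmp.integrable_comp_of_integrable (g := μ[f | past b n]) integrable_condExp)
  symm
  refine ae_eq_condExp_of_forall_setIntegral_eq (past_le (n + k)) ?_ ?_ ?_ ?_
  · exact hmp.integrable_comp_of_integrable hf
  · intro s _ _
    exact hcint.integrableOn
  · intro s hs _
    rw [← past_comap] at hs
    obtain ⟨t, ht, rfl⟩ := hs
    have e1 : ∫ y in sh k ⁻¹' t, (μ[f | past b n]) (sh k y) ∂μ = ∫ y in t, (μ[f | past b n]) y ∂μ :=
      hmp.setIntegral_preimage_emb (shEquiv (b := b) k).measurableEmbedding _ _
    have e2 : ∫ y in sh k ⁻¹' t, f (sh k y) ∂μ = ∫ y in t, f y ∂μ :=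
      hmp.setIntegral_preimage_emb (shEquiv (b := b) k).measurableEmbedding _ _
    rw [e1, e2, setIntegral_condExp (past_le n) hf ht]
  · have h1 : StronglyMeasurable[past b n] (μ[f | past b n]) := stronglyMeasurable_condExp
    exact (h1.comp_measurable (measurable_sh_past k n)).aestronglyMeasurable

end Pool.Agent.Helper44.KM
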