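import Pool.Agent.Helper44.KM.SHC

/-! Part PYTH: the recursion and Pythagoras. -/

open MeasureTheory Filter Topology

namespace Pool.Agent.Helper44.KM

open Pool.Agent.Helper5.KM

variable {b : ℕ}

theorem qf_meas (X : ℝ) (q : Sq b → ℂ) (hq : StronglyMeasurable[past b 0] q) (l : ℕ) :
    StronglyMeasurable[past b l] (fun y : Sq b => e (X * Bk l y) * q (sh l y)) := by
  have h1 : Measurable[past b l] (fun y : Sq b => e (X * Bk l y)) :=
    measurable_e.comp ((measurable_Bk l).const_mul X)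
  have h2 : Measurable[past b l] (fun y : Sq b => q (sh l y)) := by
    have h3 := measurable_sh_past (b := b) (l : ℤ) 0
    rw [zero_add] at h3
    exact hq.measurable.comp h3
  exact (h1.mul h2).stronglyMeasurable

theorem sm_of_past {n : ℤ} {f : Sq b → ℂ} (hf : StronglyMeasurable[past b n] f)
    (μ : Measure (Sq b)) : AEStronglyMeasurable f μ :=
  (hf.mono (past_le n)).aestronglyMeasurable

theorem qf_norm (X : ℝ) (q : Sq b → ℂ) (hq1 : ∀ y, ‖q y‖ ≤ 1) (l : ℕ) (y : Sq b) :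
    ‖e (X * Bk l y) * q (sh l y)‖ ≤ 1 := by
  rw [norm_mul, norm_e, one_mul]; exact hq1 _

theorem qf_int {μ : Measure (Sq b)} [IsProbabilityMeasure μ] (X : ℝ) (q : Sq b → ℂ)
    (hq : StronglyMeasurable[past b 0] q) (hq1 : ∀ y, ‖q y‖ ≤ 1) (l : ℕ) :
    Integrable (fun y : Sq b => e (X * Bk l y) * q (sh l y)) μ :=
  Integrable.of_bound (sm_of_past (qf_meas X q hq l) μ) 1 (ae_of_all _ fun y => qf_norm X q hq1 l y)

theorem Qf_sm (μ : Measure (Sq b)) (X : ℝ) (q : Sq b → ℂ) (l : ℕ) :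
    StronglyMeasurable[past b 0] (Qf μ X q l) := stronglyMeasurable_condExp

theorem Qf_int (μ : Measure (Sq b)) (X : ℝ) (q : Sq b → ℂ) (l : ℕ) :
    Integrable (Qf μ X q l) μ := integrable_condExp

theorem Qf_norm_le {μ : Measure (Sq b)} [IsProbabilityMeasure μ] (X : ℝ) (q : Sq b → ℂ)
    (hq1 : ∀ y, ‖q y‖ ≤ 1) (l : ℕ) : ∀ᵐ y ∂μ, ‖Qf μ X q l y‖ ≤ 1 :=
  ae_bdd_norm_condExp_of_ae_bdd_norm (ae_of_all _ fun y => qf_norm X q hq1 l y)

theorem Qf_succ {μ : Measure (Sq b)} [IsProbabilityMeasure μ] (h : MeasurePreserving (sh 1) μ μ)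
    (X : ℝ) (q : Sq b → ℂ) (hq : StronglyMeasurable[past b 0] q) (hq1 : ∀ y, ‖q y‖ ≤ 1)
    (l k : ℕ) : Qf μ X q (l + k) =ᵐ[μ]
      μ[fun y => e ((b : ℝ) ^ l * X * Bk k y) * Qf μ X q l (sh k y) | past b 0] := by
  have hmp := mp_sh h k
  set F : Sq b → ℂ := fun y => e (X * Bk l y) * q (sh l y) with hF
  have hFint : Integrable F μ := qf_int X q hq hq1 l
  have hFk : Integrable (fun y => F (sh k y)) μ := hmp.integrable_comp_of_integrable hFint
  have hek : StronglyMeasurable[past b k] (fun y : Sq b => e ((b : ℝ) ^ l * X * Bk k y)) :=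
    (measurable_e.comp ((measurable_Bk k).const_mul _)).stronglyMeasurable
  have hid : (fun y : Sq b => e (X * Bk (l + k) y) * q (sh ((l + k : ℕ) : ℤ) y)) =
      fun y => e ((b : ℝ) ^ l * X * Bk k y) * F (sh k y) := by
    funext y
    simp only [hF]
    rw [← mul_assoc, ← e_add, sh_sh, show l + k = k + l from add_comm l k, Bk_add l k y]
    congr 2
    · push_cast; ring
    · push_cast; ring_nf
  have hint : Integrable (fun y => e ((b : ℝ) ^ l * X * Bk k y) * F (sh k y)) μ := by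
    rw [← hid]; exact qf_int X q hq hq1 (l + k)
  have h1 : μ[fun y => e ((b : ℝ) ^ l * X * Bk k y) * F (sh k y) | past b k] =ᵐ[μ]
      fun y => e ((b : ℝ) ^ l * X * Bk k y) * (μ[fun y => F (sh k y) | past b k]) y :=
    condExp_bilin_of_stronglyMeasurable_left (ContinuousLinearMap.mul ℝ ℂ) hek hint hFk
  have h2 : μ[fun y => F (sh k y) | past b k] =ᵐ[μ] fun y => Qf μ X q l (sh k y) := by
    have := condExp_sh h F hFint 0 k
    rwa [zero_add] at this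
  have h3 : μ[fun y => e ((b : ℝ) ^ l * X * Bk k y) * F (sh k y) | past b k] =ᵐ[μ]
      fun y => e ((b : ℝ) ^ l * X * Bk k y) * Qf μ X q l (sh k y) := by
    filter_upwards [h1, h2] with y hy1 hy2
    rw [hy1, hy2]
  have h4 : μ[μ[fun y => e ((b : ℝ) ^ l * X * Bk k y) * F (sh k y) | past b k] | past b 0] =ᵐ[μ]
      μ[fun y => e ((b : ℝ) ^ l * X * Bk k y) * F (sh k y) | past b 0] :=
    condExp_condExp_of_le (past_mono (by positivity)) (past_le _)
  unfold Qf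
  rw [hid]
  exact h4.symm.trans (condExp_congr_ae h3)

theorem pyth {μ : Measure (Sq b)} [IsProbabilityMeasure μ] (h : MeasurePreserving (sh 1) μ μ)
    (X : ℝ) (q : Sq b → ℂ) (hq : StronglyMeasurable[past b 0] q) (hq1 : ∀ y, ‖q y‖ ≤ 1)
    (l k : ℕ) :
    ∫ y, ‖e ((b : ℝ) ^ l * X * Bk k y) * Qf μ X q l (sh k y) - Qf μ X q (l + k) y‖ ^ 2 ∂μ =
      ∫ y, ‖Qf μ X q l y‖ ^ 2 ∂μ - ∫ y, ‖Qf μ X q (l + k) y‖ ^ 2 ∂μ := by
  have hmp := mp_sh h k
  set f : Sq b → ℂ := fun y => e ((b : ℝ) ^ l * X * Bk k y) * Qf μ X q l (sh k y) with hf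
  set g : Sq b → ℂ := Qf μ X q (l + k) with hg
  have hgf : g =ᵐ[μ] μ[f | past b 0] := Qf_succ h X q hq hq1 l k
  have hgsm : StronglyMeasurable[past b 0] g := Qf_sm μ X q (l + k)
  have hgb : ∀ᵐ y ∂μ, ‖g y‖ ≤ 1 := Qf_norm_le X q hq1 (l + k)
  have hgint : Integrable g μ := Qf_int μ X q (l + k)
  have hfm : AEStronglyMeasurable f μ := by
    have h1 : AEStronglyMeasurable (fun y : Sq b => e ((b : ℝ) ^ l * X * Bk k y)) μ :=
      sm_of_past (n := k) (measurable_e.comp ((measurable_Bk k).const_mul _)).stronglyMeasurable μ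
    have h2 : AEStronglyMeasurable (fun y : Sq b => Qf μ X q l (sh k y)) μ :=
      (Qf_int μ X q l).aestronglyMeasurable.comp_measurePreserving hmp
    exact h1.mul h2
  have hfb : ∀ᵐ y ∂μ, ‖f y‖ ≤ 1 := by
    have h1 : ∀ᵐ y ∂μ, ‖Qf μ X q l (sh k y)‖ ≤ 1 :=
      hmp.quasiMeasurePreserving.ae (Qf_norm_le X q hq1 l)
    filter_upwards [h1] with y hy
    simp only [hf]
    rw [norm_mul, norm_e, one_mul]; exact hy
  have hfint : Integrable f μ := Integrable.of_bound hfm 1 hfb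
  have hfnorm : ∀ y, ‖f y‖ = ‖Qf μ X q l (sh k y)‖ := by
    intro y; simp only [hf]; rw [norm_mul, norm_e, one_mul]
  -- the inner product
  have hconj : StronglyMeasurable[past b 0] (fun y => (starRingEnd ℂ) (g y)) :=
    Complex.continuous_conj.comp_stronglyMeasurable hgsm
  have hbint : ∀ (u v : Sq b → ℂ), AEStronglyMeasurable u μ → AEStronglyMeasurable v μ →
      (∀ᵐ y ∂μ, ‖u y‖ ≤ 1) → (∀ᵐ y ∂μ, ‖v y‖ ≤ 1) →
      Integrable (fun y => (starRingEnd ℂ) (u y) * v y) μ := by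
    intro u v hu hv hu1 hv1
    refine Integrable.of_bound ((Complex.continuous_conj.comp_aestronglyMeasurable hu).mul hv) 1 ?_
    filter_upwards [hu1, hv1] with y h1 h2
    rw [norm_mul, RCLike.norm_conj]
    calc ‖u y‖ * ‖v y‖ ≤ 1 * 1 := by gcongr
      _ = 1 := one_mul 1
  have hgfi := hbint g f hgint.aestronglyMeasurable hfm hgb hfb
  have hggi := hbint g g hgint.aestronglyMeasurable hgint.aestronglyMeasurable hgb hgb
  have hffi := hbint f f hfm hfm hfb hfb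
  have h5 : μ[fun y => (starRingEnd ℂ) (g y) * f y | past b 0] =ᵐ[μ]
      fun y => (starRingEnd ℂ) (g y) * (μ[f | past b 0]) y :=
    condExp_bilin_of_stronglyMeasurable_left (ContinuousLinearMap.mul ℝ ℂ) hconj hgfi hfint
  have h6 : ∫ y, (starRingEnd ℂ) (g y) * f y ∂μ = ∫ y, (starRingEnd ℂ) (g y) * g y ∂μ := by
    rw [← integral_condExp (past_le 0) (f := fun y => (starRingEnd ℂ) (g y) * f y)]
    refine integral_congr_ae ?_
    filter_upwards [h5, hgf] with y h7 h8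
    rw [h7, ← h8]
  have hre : ∀ (u v : ℂ), ‖u - v‖ ^ 2 = ‖u‖ ^ 2 + ‖v‖ ^ 2 - 2 * ((starRingEnd ℂ) v * u).re := by
    intro u v
    rw [← Complex.normSq_eq_norm_sq, ← Complex.normSq_eq_norm_sq, ← Complex.normSq_eq_norm_sq,
      Complex.normSq_sub]
    congr 2
    rw [mul_comm]
  have hgg : ∀ v : ℂ, ((starRingEnd ℂ) v * v).re = ‖v‖ ^ 2 := by
    intro v
    rw [← Complex.normSq_eq_norm_sq, mul_comm, Complex.mul_conj]
    exact Complex.ofReal_re _
  have hfsq : Integrable (fun y => ‖f y‖ ^ 2) μ := by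
    refine (hffi.re).congr (ae_of_all _ fun y => ?_)
    exact hgg (f y)
  have hgsq : Integrable (fun y => ‖g y‖ ^ 2) μ := by
    refine (hggi.re).congr (ae_of_all _ fun y => ?_)
    exact hgg (g y)
  have h7 : ∫ y, ((starRingEnd ℂ) (g y) * f y).re ∂μ = ∫ y, ‖g y‖ ^ 2 ∂μ := by
    have e1 : ∫ y, ((starRingEnd ℂ) (g y) * f y).re ∂μ = (∫ y, (starRingEnd ℂ) (g y) * f y ∂μ).re :=
      integral_re hgfi
    have e2 : ∫ y, ((starRingEnd ℂ) (g y) * g y).re ∂μ = (∫ y, (starRingEnd ℂ) (g y) * g y ∂μ).re :=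
      integral_re hggi
    rw [e1, h6, ← e2]
    exact integral_congr_ae (ae_of_all _ fun y => hgg (g y))
  have h8 : ∫ y, ‖f y‖ ^ 2 ∂μ = ∫ y, ‖Qf μ X q l y‖ ^ 2 ∂μ := by
    have e1 : ∫ y, ‖f y‖ ^ 2 ∂μ = ∫ y, ‖Qf μ X q l (sh k y)‖ ^ 2 ∂μ := by
      refine integral_congr_ae (ae_of_all _ fun y => ?_)
      simp only [hfnorm]
    rw [e1]
    exact hmp.integral_comp (shEquiv (b := b) k).measurableEmbedding (fun y => ‖Qf μ X q l y‖ ^ 2)
  calc ∫ y, ‖f y - g y‖ ^ 2 ∂μ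
      = ∫ y, (‖f y‖ ^ 2 + ‖g y‖ ^ 2 - 2 * ((starRingEnd ℂ) (g y) * f y).re) ∂μ := by
        refine integral_congr_ae (ae_of_all _ fun y => ?_)
        exact hre (f y) (g y)
    _ = ∫ y, ‖f y‖ ^ 2 ∂μ + ∫ y, ‖g y‖ ^ 2 ∂μ - 2 * ∫ y, ((starRingEnd ℂ) (g y) * f y).re ∂μ := by
        have hr : Integrable (fun y => ((starRingEnd ℂ) (g y) * f y).re) μ := hgfi.re
        have a1 : ∫ y, (‖f y‖ ^ 2 + ‖g y‖ ^ 2 - 2 * ((starRingEnd ℂ) (g y) * f y).re) ∂μ =
            ∫ y, (‖f y‖ ^ 2 + ‖g y‖ ^ 2) ∂μ - ∫ y, 2 * ((starRingEnd ℂ) (g y) * f y).re ∂μ :=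
          integral_sub (hfsq.add hgsq) (hr.const_mul 2)
        have a2 : ∫ y, (‖f y‖ ^ 2 + ‖g y‖ ^ 2) ∂μ = ∫ y, ‖f y‖ ^ 2 ∂μ + ∫ y, ‖g y‖ ^ 2 ∂μ :=
          integral_add hfsq hgsq
        rw [a1, a2, integral_const_mul]
    _ = _ := by rw [h7, h8]; ring

end Pool.Agent.Helper44.KM
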